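import Pool.Agent.H25.EE.TargetsB

/-!
# The number `e ^ e` (MP_58ae59_nt), module LEN: degree and length of the entries
-/

set_option autoImplicit false

open Polynomial Finset

namespace Pool.Agent.H3.EE5.LEN

open Pool.Agent.H25.EE

private lemma plen_eq (P : ℤ[X]) {S : Finset ℕ} (h : P.support ⊆ S) :
    plen P = ∑ i ∈ S, |(P.coeff i : ℝ)| := by
  unfold plen
  refine Finset.sum_subset h fun i _ hi => ?_
  rw [Polynomial.notMem_support_iff.1 hi]
  simp

private lemma plen_nonneg (P : ℤ[X]) : 0 ≤ plen P :=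
  Finset.sum_nonneg fun _ _ => abs_nonneg _

private lemma plen_add (P Q : ℤ[X]) : plen (P + Q) ≤ plen P + plen Q := by
  rw [plen_eq (P + Q) (Polynomial.support_add (p := P) (q := Q)),
    plen_eq P (Finset.subset_union_left (s₂ := Q.support)),
    plen_eq Q (Finset.subset_union_right (s₁ := P.support)), ← Finset.sum_add_distrib]
  refine Finset.sum_le_sum fun i _ => ?_
  rw [Polynomial.coeff_add]
  push_cast
  exact abs_add_le _ _

private lemma plen_sum {ι : Type*} (s : Finset ι) (f : ι → ℤ[X]) :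
    plen (∑ i ∈ s, f i) ≤ ∑ i ∈ s, plen (f i) := by
  classical
  induction s using Finset.induction_on with
  | empty => simp [plen]
  | insert a s ha ih =>
    rw [Finset.sum_insert ha, Finset.sum_insert ha]
    exact (plen_add _ _).trans (by gcongr)

private lemma plen_C_mul (c : ℤ) (P : ℤ[X]) : plen (C c * P) ≤ |(c : ℝ)| * plen P := by
  have h : (C c * P).support ⊆ P.support := by
    intro i hi
    rw [Polynomial.mem_support_iff, Polynomial.coeff_C_mul] at hi
    rw [Polynomial.mem_support_iff]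
    exact right_ne_zero_of_mul hi
  rw [plen_eq _ h, plen, Finset.mul_sum]
  refine Finset.sum_le_sum fun i _ => ?_
  rw [Polynomial.coeff_C_mul]
  push_cast
  rw [abs_mul]

private lemma plen_X_pow_mul (n : ℕ) (P : ℤ[X]) : plen (X ^ n * P) ≤ plen P := by
  have h1 : P.support ⊆ range (P.natDegree + 1) := Polynomial.supp_subset_range_natDegree_succ
  have h2 : (X ^ n * P).support ⊆ range (n + (P.natDegree + 1)) := by
    intro i hi
    rw [Polynomial.mem_support_iff, Polynomial.coeff_X_pow_mul'] at hi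
    split_ifs at hi with hn
    · have := Polynomial.le_natDegree_of_ne_zero hi
      rw [Finset.mem_range]
      omega
    · exact absurd rfl hi
  rw [plen_eq _ h2, plen_eq _ h1, Finset.sum_range_add]
  have h3 : ∑ x ∈ range n, |(((X ^ n * P).coeff x : ℤ) : ℝ)| = 0 := by
    refine Finset.sum_eq_zero fun i hi => ?_
    rw [Polynomial.coeff_X_pow_mul', if_neg (by have := Finset.mem_range.1 hi; omega)]
    simp
  rw [h3, zero_add]
  refine Finset.sum_le_sum fun i _ => ?_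
  rw [Polynomial.coeff_X_pow_mul', if_pos (by omega), Nat.add_sub_cancel_left]

private lemma plen_mul (P Q : ℤ[X]) : plen (P * Q) ≤ plen P * plen Q := by
  conv_lhs => rw [P.as_sum_support_C_mul_X_pow, Finset.sum_mul]
  refine (plen_sum _ _).trans ?_
  conv_rhs => rw [plen, Finset.sum_mul]
  refine Finset.sum_le_sum fun i _ => ?_
  rw [mul_assoc]
  refine (plen_C_mul _ _).trans ?_
  gcongr
  exact plen_X_pow_mul _ _

private lemma plen_C (c : ℤ) : plen (C c) ≤ |(c : ℝ)| := by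
  have h := plen_C_mul c 1
  have h1 : plen (1 : ℤ[X]) ≤ 1 := by
    rw [plen_eq (1 : ℤ[X]) (S := {0}) (by
      intro i hi
      rw [Polynomial.mem_support_iff, Polynomial.coeff_one] at hi
      rw [Finset.mem_singleton]
      by_contra h0
      rw [if_neg h0] at hi
      exact hi rfl)]
    simp
  rw [mul_one] at h
  calc plen (C c) ≤ |(c : ℝ)| * plen 1 := h
    _ ≤ |(c : ℝ)| * 1 := by gcongr
    _ = |(c : ℝ)| := mul_one _

private lemma plen_pow (P : ℤ[X]) (n : ℕ) {c : ℝ} (h : plen P ≤ c) : plen (P ^ n) ≤ c ^ n := by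
  have hc : 0 ≤ c := (plen_nonneg P).trans h
  induction n with
  | zero =>
    rw [pow_zero, pow_zero]
    have := plen_C 1
    simpa using this
  | succ n ih =>
    rw [pow_succ, pow_succ]
    exact (plen_mul _ _).trans (mul_le_mul ih h (plen_nonneg _) (by positivity))

private lemma mul_bd {P Q : ℤ[X]} {c d : ℝ} (h : plen P ≤ c) (h' : plen Q ≤ d) :
    plen (P * Q) ≤ c * d :=
  (plen_mul _ _).trans (mul_le_mul h h' (plen_nonneg _) ((plen_nonneg _).trans h))

/-- bound for `x.1 * P + x.2 * Q` -/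
private lemma lin_bd {P Q : ℤ[X]} {x : ℤ × ℤ} {J : ℕ} {c : ℝ} (hx : x ∈ nd J)
    (h : plen P + plen Q ≤ c) : plen (C x.1 * P + C x.2 * Q) ≤ c * J := by
  simp only [nd, Finset.mem_product, Finset.mem_Icc] at hx
  have h1 : |(x.1 : ℝ)| ≤ J := by
    rw [abs_le]
    exact ⟨by exact_mod_cast hx.1.1, by exact_mod_cast hx.1.2⟩
  have h2 : |(x.2 : ℝ)| ≤ J := by
    rw [abs_le]
    exact ⟨by exact_mod_cast hx.2.1, by exact_mod_cast hx.2.2⟩
  have hP := plen_nonneg P
  have hQ := plen_nonneg Q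
  calc plen (C x.1 * P + C x.2 * Q) ≤ plen (C x.1 * P) + plen (C x.2 * Q) := plen_add _ _
    _ ≤ |(x.1 : ℝ)| * plen P + |(x.2 : ℝ)| * plen Q := add_le_add (plen_C_mul _ _) (plen_C_mul _ _)
    _ ≤ (J : ℝ) * plen P + (J : ℝ) * plen Q := by gcongr
    _ = (plen P + plen Q) * J := by ring
    _ ≤ c * J := by gcongr

private lemma PP_bd (π : Par) (J : ℕ) (a b : Idx) (c : ℝ) (hc : 1 ≤ c) (ha : a.1 ∈ nd J)
    (hb : b.1 ∈ nd J) (ha2 : a.2 ≤ J ^ 2) (hx : plen (lp π.x1) + plen (lp π.x2) ≤ c)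
    (hy : plen (lp π.y1) + plen (lp π.y2) ≤ c) (hAB : plen (lp π.A) * plen (lp π.B) ≤ c) :
    plen (PP π a b) ≤ 2 ^ b.2 * (c ^ (a.2 + b.2) * (J : ℝ) ^ (a.2 + b.2)) := by
  unfold PP
  refine (plen_sum _ _).trans ?_
  have hW : plen (Wp π a.1) ≤ c * J := lin_bd ha hx
  have hZ : plen (Zp π b.1) ≤ c * J := lin_bd hb hy
  have hL : plen (lp π.A * lp π.B) ≤ c := (plen_mul _ _).trans hAB
  have hJ0 : (0 : ℝ) ≤ J := Nat.cast_nonneg J
  have hc0 : (0 : ℝ) ≤ c := by linarith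
  have hterm : ∀ l ∈ range (min a.2 b.2 + 1),
      plen (C (((l.factorial * a.2.choose l * b.2.choose l : ℕ) : ℤ)) * Zp π b.1 ^ (a.2 - l) *
        Wp π a.1 ^ (b.2 - l) * (lp π.A * lp π.B) ^ l) ≤
      (b.2.choose l : ℝ) * (c ^ (a.2 + b.2) * (J : ℝ) ^ (a.2 + b.2)) := by
    intro l hl
    have hl' : l ≤ min a.2 b.2 := Nat.lt_succ_iff.1 (Finset.mem_range.1 hl)
    have hla : l ≤ a.2 := hl'.trans (min_le_left _ _)
    have hlb : l ≤ b.2 := hl'.trans (min_le_right _ _)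
    have h0 : |(((l.factorial * a.2.choose l * b.2.choose l : ℕ) : ℤ) : ℝ)| ≤
        ((J : ℝ) ^ 2) ^ l * (b.2.choose l : ℝ) := by
      rw [Int.cast_natCast, abs_of_nonneg (Nat.cast_nonneg _), Nat.cast_mul,
        ← Nat.descFactorial_eq_factorial_mul_choose]
      gcongr
      calc ((a.2.descFactorial l : ℕ) : ℝ) ≤ ((a.2 ^ l : ℕ) : ℝ) := by
            exact_mod_cast Nat.descFactorial_le_pow _ _
        _ = (a.2 : ℝ) ^ l := by push_cast; ring
        _ ≤ ((J : ℝ) ^ 2) ^ l := by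
          gcongr
          exact_mod_cast ha2
    have h1 := mul_bd (mul_bd (mul_bd ((plen_C _).trans h0) (plen_pow _ (a.2 - l) hZ))
      (plen_pow _ (b.2 - l) hW)) (plen_pow _ l hL)
    refine h1.trans ?_
    have e1 : ((J : ℝ) ^ 2) ^ l * (b.2.choose l : ℝ) * (c * J) ^ (a.2 - l) *
        (c * J) ^ (b.2 - l) * c ^ l =
        (b.2.choose l : ℝ) * (c ^ ((a.2 - l) + (b.2 - l) + l) *
          (J : ℝ) ^ (2 * l + (a.2 - l) + (b.2 - l))) := by
      rw [mul_pow, mul_pow]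
      ring
    rw [e1]
    have e2 : 2 * l + (a.2 - l) + (b.2 - l) = a.2 + b.2 := by omega
    rw [e2]
    have e3 : c ^ ((a.2 - l) + (b.2 - l) + l) ≤ c ^ (a.2 + b.2) :=
      pow_le_pow_right₀ hc (by omega)
    gcongr
  calc ∑ l ∈ range (min a.2 b.2 + 1),
      plen (C (((l.factorial * a.2.choose l * b.2.choose l : ℕ) : ℤ)) * Zp π b.1 ^ (a.2 - l) *
        Wp π a.1 ^ (b.2 - l) * (lp π.A * lp π.B) ^ l)
      ≤ ∑ l ∈ range (min a.2 b.2 + 1),
        (b.2.choose l : ℝ) * (c ^ (a.2 + b.2) * (J : ℝ) ^ (a.2 + b.2)) :=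
        Finset.sum_le_sum hterm
    _ ≤ ∑ l ∈ range (b.2 + 1),
        (b.2.choose l : ℝ) * (c ^ (a.2 + b.2) * (J : ℝ) ^ (a.2 + b.2)) := by
        refine Finset.sum_le_sum_of_subset_of_nonneg ?_ fun l _ _ => by positivity
        exact Finset.range_subset_range.2 (by omega)
    _ = 2 ^ b.2 * (c ^ (a.2 + b.2) * (J : ℝ) ^ (a.2 + b.2)) := by
        rw [← Finset.sum_mul]
        congr 1
        have := Nat.sum_range_choose b.2
        exact_mod_cast this

private lemma lp_deg (l : ℤ × ℤ) : (lp l).natDegree ≤ 1 := by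
  unfold Pool.Agent.H25.EE.lp
  refine (Polynomial.natDegree_add_le _ _).trans ?_
  rw [Polynomial.natDegree_C]
  refine max_le (by norm_num) ?_
  exact (Polynomial.natDegree_C_mul_le _ _).trans Polynomial.natDegree_X_le

private lemma comb_deg (x y : ℤ) (l m : ℤ × ℤ) :
    (C x * lp l + C y * lp m).natDegree ≤ 1 :=
  (Polynomial.natDegree_add_le _ _).trans
    (max_le ((Polynomial.natDegree_C_mul_le _ _).trans (lp_deg _))
      ((Polynomial.natDegree_C_mul_le _ _).trans (lp_deg _)))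

private lemma PP_deg (π : Par) (a b : Idx) : (PP π a b).natDegree ≤ a.2 + b.2 := by
  unfold PP
  refine Polynomial.natDegree_sum_le_of_forall_le _ _ fun l hl => ?_
  have hl' : l ≤ min a.2 b.2 := Nat.lt_succ_iff.1 (Finset.mem_range.1 hl)
  have hla : l ≤ a.2 := hl'.trans (min_le_left _ _)
  have hlb : l ≤ b.2 := hl'.trans (min_le_right _ _)
  have h1 : (Zp π b.1 ^ (a.2 - l)).natDegree ≤ (a.2 - l) * 1 :=
    Polynomial.natDegree_pow_le_of_le _ (comb_deg _ _ _ _)
  have h2 : (Wp π a.1 ^ (b.2 - l)).natDegree ≤ (b.2 - l) * 1 :=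
    Polynomial.natDegree_pow_le_of_le _ (comb_deg _ _ _ _)
  have h3 : ((lp π.A * lp π.B) ^ l).natDegree ≤ l * (1 + 1) :=
    Polynomial.natDegree_pow_le_of_le _ (Polynomial.natDegree_mul_le_of_le (lp_deg _) (lp_deg _))
  have h4 := Polynomial.natDegree_mul_le_of_le (Polynomial.natDegree_mul_le_of_le
    (Polynomial.natDegree_mul_le_of_le (Polynomial.natDegree_C
      (((l.factorial * a.2.choose l * b.2.choose l : ℕ) : ℤ))).le h1) h2) h3
  refine h4.trans ?_
  omega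

private lemma exo_bd {J : ℕ} {a b : Idx} (ha : a.1 ∈ nd J) (hb : b.1 ∈ nd J) (i j : Fin 2) :
    |exo a b i j| ≤ (J : ℤ) ^ 2 := by
  simp only [nd, Finset.mem_product, Finset.mem_Icc] at ha hb
  have h1 : |(![a.1.1, a.1.2] : Fin 2 → ℤ) i| ≤ J := by
    fin_cases i
    · exact abs_le.2 ⟨ha.1.1, ha.1.2⟩
    · exact abs_le.2 ⟨ha.2.1, ha.2.2⟩
  have h2 : |(![b.1.1, b.1.2] : Fin 2 → ℤ) j| ≤ J := by
    fin_cases j
    · exact abs_le.2 ⟨hb.1.1, hb.1.2⟩
    · exact abs_le.2 ⟨hb.2.1, hb.2.2⟩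
  unfold exo
  rw [abs_mul, sq]
  exact mul_le_mul h1 h2 (abs_nonneg _) (by positivity)

private lemma cst_bd (π : Par) (J : ℕ) (a b : Idx) (ha : a.1 ∈ nd J) (hb : b.1 ∈ nd J) :
    |(cst π J a b : ℝ)| ≤
      (∏ i : Fin 2, ∏ j : Fin 2, ((π.u i j : ℝ) * π.v i j)) ^ (2 * J ^ 2) := by
  unfold cst
  rw [← Finset.prod_pow]
  simp only [← Finset.prod_pow]
  push_cast
  rw [abs_of_nonneg (by positivity)]
  refine Finset.prod_le_prod (fun i _ => by positivity) fun i _ => ?_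
  refine Finset.prod_le_prod (fun j _ => by positivity) fun j _ => ?_
  have h := abs_le.1 (exo_bd ha hb i j)
  have hu : (1 : ℝ) ≤ π.u i j := by exact_mod_cast π.hu i j
  have hv : (1 : ℝ) ≤ π.v i j := by exact_mod_cast π.hv i j
  rw [mul_pow]
  have e1 : ((J : ℤ) ^ 2 + exo a b i j).toNat ≤ 2 * J ^ 2 := by
    rw [Int.toNat_le]
    push_cast
    linarith
  have e2 : ((J : ℤ) ^ 2 - exo a b i j).toNat ≤ 2 * J ^ 2 := by
    rw [Int.toNat_le]
    push_cast
    linarith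
  gcongr

theorem pf_LEN (hCARD : T_CARD) : T_LEN := by
  intro π
  obtain ⟨c, hc⟩ : ∃ c : ℝ, c = 1 + (plen (lp π.x1) + plen (lp π.x2)) +
    (plen (lp π.y1) + plen (lp π.y2)) + plen (lp π.A) * plen (lp π.B) := ⟨_, rfl⟩
  obtain ⟨M, hM⟩ : ∃ M : ℝ, M = ∏ i : Fin 2, ∏ j : Fin 2, ((π.u i j : ℝ) * π.v i j) := ⟨_, rfl⟩
  have hM1 : 1 ≤ M := by
    rw [hM]
    have h1 : ∀ i j : Fin 2, (1 : ℝ) ≤ (π.u i j : ℝ) * π.v i j := fun i j => by
      have hu : (1 : ℝ) ≤ π.u i j := by exact_mod_cast π.hu i j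
      have hv : (1 : ℝ) ≤ π.v i j := by exact_mod_cast π.hv i j
      exact one_le_mul_of_one_le_of_one_le hu hv
    rw [Fin.prod_univ_two, Fin.prod_univ_two, Fin.prod_univ_two]
    exact one_le_mul_of_one_le_of_one_le (one_le_mul_of_one_le_of_one_le (h1 _ _) (h1 _ _))
      (one_le_mul_of_one_le_of_one_le (h1 _ _) (h1 _ _))
  have hx1 := plen_nonneg (lp π.x1)
  have hx2 := plen_nonneg (lp π.x2)
  have hy1 := plen_nonneg (lp π.y1)
  have hy2 := plen_nonneg (lp π.y2)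
  have hAB : 0 ≤ plen (lp π.A) * plen (lp π.B) := mul_nonneg (plen_nonneg _) (plen_nonneg _)
  have hc1 : 1 ≤ c := by rw [hc]; linarith
  have hlM : 0 ≤ Real.log M := Real.log_nonneg hM1
  have hlc : 0 ≤ Real.log c := Real.log_nonneg hc1
  have hl2 : 0 ≤ Real.log 2 := Real.log_nonneg (by norm_num)
  refine ⟨2 * Real.log M + Real.log 2 + 2 * Real.log c, by positivity, fun J hJ a ha b hb => ?_⟩
  obtain ⟨ha1, ha2⟩ := Finset.mem_sigma.1 ha
  obtain ⟨hb1, hb2⟩ := Finset.mem_sigma.1 hb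
  have ha3 : a.2 ≤ J ^ 2 := (Finset.mem_range.1 ha2).le.trans (hCARD.2.2.2.2 J a.1 ha1).1
  have hb3 : b.2 ≤ J ^ 2 := (Finset.mem_range.1 hb2).le.trans (hCARD.2.2.2.2 J b.1 hb1).2
  constructor
  · unfold mm
    have h1 := Polynomial.natDegree_mul_le_of_le (Polynomial.natDegree_mul_le_of_le
      (Polynomial.natDegree_C (cst π J a b)).le (PP_deg π a b))
      (Polynomial.natDegree_X_pow_le (R := ℤ) (EX a b))
    rw [zero_add] at h1
    exact h1
  · have h1 := PP_bd π J a b c hc1 ha1 hb1 ha3 (by rw [hc]; linarith) (by rw [hc]; linarith)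
      (by rw [hc]; linarith)
    have h2 := cst_bd π J a b ha1 hb1
    rw [← hM] at h2
    have h3 : plen (X ^ (EX a b) : ℤ[X]) ≤ 1 := by
      have h := plen_X_pow_mul (EX a b) 1
      rw [mul_one] at h
      have h' := plen_C 1
      rw [map_one] at h'
      refine h.trans (h'.trans ?_)
      simp
    unfold mm
    refine (mul_bd (mul_bd ((plen_C _).trans h2) h1) h3).trans ?_
    have hJ0 : (0 : ℝ) < J := by
      have : 0 < J := by omega
      exact_mod_cast this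
    have hM0 : 0 < M := by linarith
    have hc0 : 0 < c := by linarith
    have e1 : M ^ (2 * J ^ 2) = Real.exp (2 * (J : ℝ) ^ 2 * Real.log M) := by
      rw [← Real.exp_log hM0, ← Real.exp_nat_mul, Real.log_exp]
      congr 1
      push_cast
      ring
    have e2 : ((2 : ℝ) ^ b.2) = Real.exp ((b.2 : ℝ) * Real.log 2) := by
      rw [Real.exp_nat_mul, Real.exp_log (by norm_num)]
    have e3 : c ^ (a.2 + b.2) = Real.exp (((a.2 : ℝ) + b.2) * Real.log c) := by
      have : ((a.2 : ℝ) + b.2) = ((a.2 + b.2 : ℕ) : ℝ) := by push_cast; ring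
      rw [this, Real.exp_nat_mul, Real.exp_log hc0]
    have e4 : (J : ℝ) ^ (a.2 + b.2) = Real.exp (((a.2 : ℝ) + b.2) * Real.log J) := by
      have : ((a.2 : ℝ) + b.2) = ((a.2 + b.2 : ℕ) : ℝ) := by push_cast; ring
      rw [this, Real.exp_nat_mul, Real.exp_log hJ0]
    rw [e1, e2, e3, e4, mul_one, ← Real.exp_add, ← Real.exp_add, ← Real.exp_add]
    refine Real.exp_le_exp.2 ?_
    have ha4 : (a.2 : ℝ) ≤ (J : ℝ) ^ 2 := by exact_mod_cast ha3
    have hb4 : (b.2 : ℝ) ≤ (J : ℝ) ^ 2 := by exact_mod_cast hb3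
    have h5 : (b.2 : ℝ) * Real.log 2 ≤ (J : ℝ) ^ 2 * Real.log 2 := by gcongr
    have h6 : ((a.2 : ℝ) + b.2) * Real.log c ≤ (2 * (J : ℝ) ^ 2) * Real.log c := by
      gcongr
      linarith
    linarith

end Pool.Agent.H3.EE5.LEN
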